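import Pool.Agent.Lib.MP_16bc4e_al.Alg

namespace Pool.Agent.Results.MP_16bc4e_al.Decidable

open Pool.Agent.Lib.MP_16bc4e_al

/-- For every rank `n`, there is an algorithm which, given two words over the basis of `F_n` and
its inverses, decides whether the elements they represent are translation equivalent. -/
theorem result (n : ℕ) :
    ComputablePred fun p : List (Fin n × Bool) × List (Fin n × Bool) =>
      TransEquiv (FreeGroup.mk p.1) (FreeGroup.mk p.2) :=
  (decidable_te n).computablePred

end Pool.Agent.Results.MP_16bc4e_al.Decidable
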